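import Pool.Agent.H29.CHD.TLD

/-!
# Board `chs_modules`: the target `T_TCL`
-/

set_option autoImplicit false

namespace Pool.Agent.H29.CHD

open Classical Pool.Agent.H46.CH
open Pool.Agent.H8.VR (C2)
open Pool.Agent.H8.JS (NTM Cfg Mv IsComp lang num)

/-- the instructions of the clock -/
def InC {M : NTM} {d : ℕ} : Ins M d → Prop
  | .ipop _ => True
  | .ipush _ => True
  | .fpop => True
  | .fpush => True
  | _ => False

theorem inC_st {M : NTM} {d : ℕ} {e : Ins M d} (h : InC e) : Ins.st e = true := by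
  cases e <;> first | rfl | exact (h : False).elim

theorem inC_ar {M : NTM} {d : ℕ} {e : Ins M d} (h : InC e) :
    TI.ar (.inl e : TI M d) = false := by
  cases e <;> first | rfl | exact (h : False).elim

theorem inC_nx {M : NTM} {br : M.Q → Option (M.Q × M.Q)} {d : ℕ} {e : Ins M d} {i : TI M d}
    (h : InC e) (hn : TI.nx br (.inl e) i) : ∃ e', i = .inl e' ∧ Ins.nx e e' ∧ InC e' := by
  cases i with
  | inr x => cases e <;> first | exact (h : False).elim | exact (hn : False).elim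
  | inl e' =>
    refine ⟨e', rfl, ?_⟩
    cases e <;> cases e' <;>
      first
      | exact (h : False).elim
      | exact (hn : False).elim
      | exact ⟨hn, trivial⟩

theorem nx_inC {M : NTM} {br : M.Q → Option (M.Q × M.Q)} {d : ℕ} {e e' : Ins M d}
    (h : InC e) (hn : Ins.nx e e') : InC e' ∧ TI.nx br (.inl e : TI M d) (.inl e') := by
  cases e <;> cases e' <;>
    first
    | exact (h : False).elim
    | exact (hn : False).elim
    | exact ⟨trivial, hn⟩

theorem tcl_fwd (hIR : T_TIR) (M : NTM) (br : M.Q → Option (M.Q × M.Q)) (B : ℕ) (cd : TS M → ℕ)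
    (d : ℕ) (i : (tmT M br B cd d).I) (v : Ct M.k d → ℕ) (t : Bool → ℕ)
    (h : (tmT M br B cd d).Tre i v t) :
    ∀ e : Ins M d, i = .inl e → InC e → ∃ (v₅ : Ct M.k d → ℕ) (s : ℕ),
      (tmA M B cd d).Path e v .fpush v₅ s ∧ t true = s + (1 + ∑ j, v₅ j) + 1 ∧ t false = 0 := by
  induction h with
  | fin i v s ha hf hr hs =>
    rintro e rfl he
    rcases hf with hf | hf
    · injection hf with hf
      subst hf
      refine ⟨v, 0, AM.Path.nil _ _, ?_, ?_⟩
      · rw [hs true, zero_add]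
        rfl
      · rw [hs false]
        rfl
    · exact absurd hf (by simp)
  | one i v i' v' s' s ha hn hr ht hs ih =>
    rintro e rfl he
    obtain ⟨e', rfl, hn', he'⟩ := inC_nx he hn
    obtain ⟨v₅, s₁, h1, h2, h3⟩ := ih e' rfl he'
    have hst : (tmT M br B cd d).st (Sum.inl e : TI M d) = true := inC_st he
    refine ⟨v₅, _, path_cons (((hIR M br B cd d v v').1 e).1 hr) hn' h1, ?_, ?_⟩
    · rw [hs true, h2]
      unfold BM.own
      rw [if_pos hst]
      ring
    · rw [hs false, h3]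
      unfold BM.own
      rw [hst, if_neg (by simp)]
  | two i v e₁ v₁ s₁ e₂ v₂ s₂ s ha hn₁ hn₂ hr₁ hr₂ h₁ h₂ hs ih₁ ih₂ =>
    rintro e rfl he
    have h3 : TI.ar (.inl e : TI M d) = true := ha
    rw [inC_ar he] at h3
    exact absurd h3 Bool.false_ne_true

theorem tcl_bwd (hIR : T_TIR) (M : NTM) (br : M.Q → Option (M.Q × M.Q)) (B : ℕ) (cd : TS M → ℕ)
    (d : ℕ) (e : (tmA M B cd d).I) (v : Ct M.k d → ℕ) (e' : (tmA M B cd d).I)
    (v' : Ct M.k d → ℕ) (s : ℕ) (h : (tmA M B cd d).Path e v e' v' s) :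
    InC (M := M) (d := d) e → InC (M := M) (d := d) e' ∧ ∀ t : Bool → ℕ,
      (tmT M br B cd d).Tre (.inl e') v' t →
      ∃ t' : Bool → ℕ, (tmT M br B cd d).Tre (.inl e) v t' ∧ t' false = t false ∧
        t' true = s + t true := by
  intro he
  induction h with
  | nil => exact ⟨he, fun t ht => ⟨t, ht, rfl, (zero_add _).symm⟩⟩
  | snoc e₁ v₁ e₂ v₂ s h hr hn ih =>
    change Ins M d at e₁ e₂
    obtain ⟨k1, k2⟩ := ih
    obtain ⟨k3, k4⟩ := nx_inC (br := br) k1 hn
    refine ⟨k3, fun t ht => ?_⟩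
    obtain ⟨t', h1, h2, h3⟩ := k2
      (fun b => (tmT M br B cd d).own (Sum.inl e₁ : TI M d) v₁ b + t b)
      (BM.Tre.one (M := tmT M br B cd d) (Sum.inl e₁ : TI M d) v₁ (Sum.inl e₂ : TI M d) v₂ t _
        (inC_ar k1) k4 (((hIR M br B cd d v₁ v₂).1 e₁).2 hr) ht fun _ => rfl)
    have hst : (tmT M br B cd d).st (Sum.inl e₁ : TI M d) = true := inC_st k1
    refine ⟨t', h1, ?_, ?_⟩
    · rw [h2]
      unfold BM.own
      rw [hst, if_neg (by simp), zero_add]
    · rw [h3]
      unfold BM.own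
      rw [if_pos hst]
      ring

theorem tre_cases {J : Type} [Fintype J] {M : BM J} {i : M.I} {v : J → ℕ} {t : Bool → ℕ}
    (h : M.Tre i v t) : M.fi i ∨ M.ar i = true ∨ ∃ i' v' t', M.nx i i' ∧ M.Rel i v v' ∧
      M.Tre i' v' t' ∧ ∀ b, t b = M.own i v b + t' b := by
  induction h with
  | fin i v s ha hf hr hs => exact Or.inl hf
  | one i v i' v' t' s ha hn hr ht hs ih => exact Or.inr (Or.inr ⟨i', v', t', hn, hr, ht, hs⟩)
  | two i v e₁ v₁ s₁ e₂ v₂ s₂ s ha hn₁ hn₂ hr₁ hr₂ h₁ h₂ hs ih₁ ih₂ => exact Or.inr (Or.inl ha)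

/-- inversion at an instruction of the first stage which is not the last one -/
theorem tcl_inv (hIR : T_TIR) (M : NTM) (br : M.Q → Option (M.Q × M.Q)) (B : ℕ) (cd : TS M → ℕ)
    (d : ℕ) (e : Ins M d) (v : Ct M.k d → ℕ) (t : Bool → ℕ) (he : e ≠ .fpush)
    (ha : TI.ar (.inl e : TI M d) = false) (hst : Ins.st e = false)
    (h : (tmT M br B cd d).Tre (Sum.inl e : TI M d) v t) :
    ∃ (i : TI M d) (v' : Ct M.k d → ℕ) (t' : Bool → ℕ), TI.nx br (.inl e) i ∧
      (tmA M B cd d).Rel e v v' ∧ (tmT M br B cd d).Tre i v' t' ∧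
      t false = (1 + ∑ j, v j) + t' false ∧ t true = t' true := by
  have hst' : (tmT M br B cd d).st (Sum.inl e : TI M d) = false := hst
  rcases tre_cases h with hf | h3 | ⟨e', v', s', hn, hr, ht, hs⟩
  · rcases hf with hf | hf
    · injection hf with hf
      exact absurd hf he
    · exact absurd hf (by simp)
  · rw [show (tmT M br B cd d).ar (Sum.inl e : TI M d) = false from ha] at h3
    exact absurd h3 Bool.false_ne_true
  · refine ⟨e', v', s', hn, ((hIR M br B cd d v v').1 e).1 hr, ht, ?_, ?_⟩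
    · rw [hs false]
      unfold BM.own
      rw [if_pos hst']
    · rw [hs true]
      unfold BM.own
      rw [hst', if_neg Bool.false_ne_true, zero_add]

/-- introduction at an instruction of the first stage -/
theorem tcl_intro (hIR : T_TIR) (M : NTM) (br : M.Q → Option (M.Q × M.Q)) (B : ℕ)
    (cd : TS M → ℕ) (d : ℕ) (e : Ins M d) (v : Ct M.k d → ℕ) (i : TI M d) (v' : Ct M.k d → ℕ)
    (t t' : Bool → ℕ) (ha : TI.ar (.inl e : TI M d) = false) (hst : Ins.st e = false)
    (hn : TI.nx br (.inl e) i) (hr : (tmA M B cd d).Rel e v v')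
    (ht : (tmT M br B cd d).Tre i v' t') (h0 : t false = (1 + ∑ j, v j) + t' false)
    (h1 : t true = t' true) : (tmT M br B cd d).Tre (Sum.inl e : TI M d) v t := by
  have hst' : (tmT M br B cd d).st (Sum.inl e : TI M d) = false := hst
  refine BM.Tre.one (M := tmT M br B cd d) (Sum.inl e : TI M d) v i v' t' t ha hn
    (((hIR M br B cd d v v').1 e).2 hr) ht fun b => ?_
  unfold BM.own
  cases b
  · rw [if_pos hst', h0]
  · rw [hst', if_neg Bool.false_ne_true, h1, zero_add]

theorem pf_TCL (hIR : T_TIR) (hIR0 : T_IR) : Pool.Agent.H46.CH.T_TCL := by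
  intro M br B cd d v t
  constructor
  · intro h
    obtain ⟨i₂, v₂, t₂, n2, r2, h2, a2, b2⟩ := tcl_inv hIR M br B cd d .clear v t (by simp) rfl rfl h
    have e2 : i₂ = .inl .pad := by
      cases i₂ with
      | inr x => exact (n2 : False).elim
      | inl e' => cases e' <;> first | rfl | exact (n2 : False).elim
    subst e2
    obtain ⟨i₃, v₃, t₃, n3, r3, h3, a3, b3⟩ := tcl_inv hIR M br B cd d .pad v₂ t₂ (by simp) rfl rfl h2
    have e3 : i₃ = .inl .begB := by
      cases i₃ with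
      | inr x => exact (n3 : False).elim
      | inl e' => cases e' <;> first | rfl | exact (n3 : False).elim
    subst e3
    obtain ⟨i₄, v₄, t₄, n4, r4, h4, a4, b4⟩ := tcl_inv hIR M br B cd d .begB v₃ t₃ (by simp) rfl rfl h3
    have e4 : ∃ e : Ins M d, i₄ = .inl e ∧ Ins.nx (.begB : Ins M d) e ∧ InC e := by
      cases i₄ with
      | inr x => exact (n4 : False).elim
      | inl e' =>
        refine ⟨e', rfl, n4, ?_⟩
        cases e' <;> trivial
    obtain ⟨e, rfl, n5, he⟩ := e4
    obtain ⟨v₅, s, h5, a5, b5⟩ := tcl_fwd hIR M br B cd d _ v₄ t₄ h4 e rfl he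
    exact ⟨v₂, v₃, v₄, v₅, e, s, r2, r3, r4, n5, h5, by omega, by omega⟩
  · rintro ⟨v₂, v₃, v₄, v₅, e, s, r2, r3, r4, n5, h5, a, b⟩
    have he : InC e := by
      cases e <;> trivial
    have n5' : TI.nx br (.inl .begB : TI M d) (.inl e) := n5
    have hend : (tmT M br B cd d).Tre (Sum.inl .fpush : TI M d) v₅
        (fun b => (tmT M br B cd d).own (Sum.inl .fpush : TI M d) v₅ b +
          if (tmT M br B cd d).st (Sum.inl .fpush : TI M d) = b then 1 else 0) :=
      BM.Tre.fin (M := tmT M br B cd d) (Sum.inl .fpush : TI M d) v₅ _ rfl (Or.inl rfl)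
        (((hIR M br B cd d v₅ fun _ => 0).1 .fpush).2
          ((hIR0 M B cd d v₅ fun _ => 0).2.2.2.2.2.2.2.2 fun _ => rfl)) fun _ => rfl
    obtain ⟨-, hb⟩ := tcl_bwd hIR M br B cd d e v₄ .fpush v₅ s h5 he
    obtain ⟨t', k1, k2, k3⟩ := hb _ hend
    have k2' : t' false = 0 := by
      rw [k2]
      rfl
    have k3' : t' true = s + ((1 + ∑ j, v₅ j) + 1) := by
      rw [k3]
      rfl
    refine tcl_intro hIR M br B cd d .clear v (.inl .pad) v₂ t
      (fun b => if b = true then t' true else (1 + ∑ j, v₂ j) + ((1 + ∑ j, v₃ j) + t' false)) rfl rfl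
      trivial r2 (tcl_intro hIR M br B cd d .pad v₂ (.inl .begB) v₃ _
        (fun b => if b = true then t' true else (1 + ∑ j, v₃ j) + t' false) rfl rfl trivial r3
        (tcl_intro hIR M br B cd d .begB v₃ (.inl e) v₄ _ t' rfl rfl n5' r4 k1 ?_ ?_) ?_ ?_) ?_ ?_
    · simp
    · simp
    · simp
    · simp
    · simp only [Bool.false_eq_true, if_false]
      omega
    · simp only [if_true]
      omega

end Pool.Agent.H29.CHD
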