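import Pool.Agent.H46.CH.DL

/-!
# Board `chs_modules`: the target `T_TLD`
-/

set_option autoImplicit false

namespace Pool.Agent.H29.CHD

open Classical Pool.Agent.H46.CH
open Pool.Agent.H8.VR (C2)
open Pool.Agent.H8.JS (NTM Cfg Mv IsComp lang num)

theorem path_cons {J : Type} [Fintype J] {M : AM J} {e₀ e e' : M.I} {v₀ v v' : J → ℕ} {s : ℕ}
    (hr : M.Rel e₀ v₀ v) (hn : M.nx e₀ e) (h : M.Path e v e' v' s) :
    M.Path e₀ v₀ e' v' ((1 + ∑ j, v₀ j) + s) := by
  induction h with
  | nil =>
    have h1 := AM.Path.snoc (M := M) _ _ _ _ _ _ 0 (AM.Path.nil e₀ v₀) hr hn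
    rw [zero_add] at h1
    exact h1
  | snoc e₁ v₁ e₂ v₂ s h hr' hn' ih =>
    have h1 := AM.Path.snoc (M := M) _ _ _ _ _ _ _ ih hr' hn'
    rw [add_assoc] at h1
    exact h1

/-- the instructions of the loading part -/
def InL {M : NTM} {d : ℕ} : Ins M d → Prop
  | .start => True
  | .load _ => True
  | .endl => True
  | _ => False

theorem tre_ext {J : Type} [Fintype J] {M : BM J} {e : M.I} {v : J → ℕ} {s s' : Bool → ℕ}
    (h : M.Tre e v s) (h0 : s' false = s false) (h1 : s' true = s true) : M.Tre e v s' := by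
  have h2 : s' = s := by
    funext b
    cases b
    · exact h0
    · exact h1
  rw [h2]
  exact h

theorem tld_fwd (hIR : T_TIR) (M : NTM) (br : M.Q → Option (M.Q × M.Q)) (B : ℕ) (cd : TS M → ℕ)
    (d : ℕ) (i : (tmT M br B cd d).I) (v : Ct M.k d → ℕ) (t' : Bool → ℕ)
    (h : (tmT M br B cd d).Tre i v t') :
    ∀ e : Ins M d, i = .inl e → InL e → ∃ (v₁ : Ct M.k d → ℕ) (s : ℕ) (t : Bool → ℕ),
      (tmA M B cd d).Path e v .endl v₁ s ∧ (tmT M br B cd d).Tre (.inl .endl) v₁ t ∧
      t' false = s + t false ∧ t' true = t true := by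
  induction h with
  | fin i v s ha hf hr hs =>
    rintro e rfl he
    rcases hf with hf | hf
    · injection hf with hf
      rw [hf] at he
      exact he.elim
    · exact absurd hf (by simp)
  | one i v i' v' s' s ha hn hr ht hs ih =>
    rintro e rfl he
    cases e with
    | start =>
      cases i' with
      | inr x => exact (hn : False).elim
      | inl e' =>
        have hn' : Ins.nx (.start : Ins M d) e' := hn
        have he' : InL e' := by
          cases e' <;> trivial
        obtain ⟨v₁, s₁, t, h1, h2, h3, h4⟩ := ih e' rfl he'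
        refine ⟨v₁, _, t, path_cons (((hIR M br B cd d v v').1 .start).1 hr) hn' h1, h2, ?_, ?_⟩
        · rw [hs false, h3, ← add_assoc]
          rfl
        · rw [hs true, h4]
          exact zero_add _
    | load b =>
      cases i' with
      | inr x => exact (hn : False).elim
      | inl e' =>
        have hn' : Ins.nx (.load b : Ins M d) e' := hn
        have he' : InL e' := by
          cases e' <;> trivial
        obtain ⟨v₁, s₁, t, h1, h2, h3, h4⟩ := ih e' rfl he'
        refine ⟨v₁, _, t, path_cons (((hIR M br B cd d v v').1 (.load b)).1 hr) hn' h1, h2, ?_, ?_⟩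
        · rw [hs false, h3, ← add_assoc]
          rfl
        · rw [hs true, h4]
          exact zero_add _
    | endl => exact absurd ha (by simp [tmT, TI.ar])
    | pop τ => exact (he : False).elim
    | push τ => exact (he : False).elim
    | clear => exact (he : False).elim
    | pad => exact (he : False).elim
    | begB => exact (he : False).elim
    | ipop i => exact (he : False).elim
    | ipush i => exact (he : False).elim
    | fpop => exact (he : False).elim
    | fpush => exact (he : False).elim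
  | two i v e₁ v₁ s₁ e₂ v₂ s₂ s ha hn₁ hn₂ hr₁ hr₂ h₁ h₂ hs ih₁ ih₂ =>
    rintro e rfl he
    cases e with
    | endl =>
      exact ⟨v, 0, s, AM.Path.nil _ _, BM.Tre.two _ v e₁ v₁ s₁ e₂ v₂ s₂ s ha hn₁ hn₂ hr₁ hr₂ h₁ h₂ hs,
        (zero_add _).symm, rfl⟩
    | start => exact absurd ha (by simp [tmT, TI.ar])
    | load b => exact absurd ha (by simp [tmT, TI.ar])
    | pop τ => exact (he : False).elim
    | push τ => exact (he : False).elim
    | clear => exact (he : False).elim
    | pad => exact (he : False).elim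
    | begB => exact (he : False).elim
    | ipop i => exact (he : False).elim
    | ipush i => exact (he : False).elim
    | fpop => exact (he : False).elim
    | fpush => exact (he : False).elim

theorem tld_bwd (hIR : T_TIR) (M : NTM) (br : M.Q → Option (M.Q × M.Q)) (B : ℕ) (cd : TS M → ℕ)
    (d : ℕ) (e : (tmA M B cd d).I) (v : Ct M.k d → ℕ) (e' : (tmA M B cd d).I)
    (v' : Ct M.k d → ℕ) (s : ℕ) (h : (tmA M B cd d).Path e v e' v' s) :
    InL (M := M) (d := d) e' → ∀ t : Bool → ℕ, (tmT M br B cd d).Tre (.inl e') v' t →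
      ∃ t' : Bool → ℕ, (tmT M br B cd d).Tre (.inl e) v t' ∧ t' false = s + t false ∧
        t' true = t true := by
  induction h with
  | nil => exact fun _ t ht => ⟨t, ht, (zero_add _).symm, rfl⟩
  | snoc e₁ v₁ e₂ v₂ s h hr hn ih =>
    intro he t ht
    change Ins M d at e₁ e₂
    have hn' : Ins.nx e₁ e₂ := hn
    have key : InL e₁ ∧ TI.ar (.inl e₁ : TI M d) = false ∧
        TI.nx br (.inl e₁ : TI M d) (.inl e₂) ∧ Ins.st e₁ = false := by
      cases e₁ <;> cases e₂ <;>
        first
        | exact (he : False).elim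
        | exact (hn' : False).elim
        | exact ⟨trivial, rfl, trivial, rfl⟩
    obtain ⟨k1, k2, k3, k4⟩ := key
    obtain ⟨t', h1, h2, h3⟩ := ih k1
      (fun b => (tmT M br B cd d).own (Sum.inl e₁ : TI M d) v₁ b + t b)
      (BM.Tre.one (M := tmT M br B cd d) (Sum.inl e₁ : TI M d) v₁ (Sum.inl e₂ : TI M d) v₂ t _ k2 k3
        (((hIR M br B cd d v₁ v₂).1 e₁).2 hr) ht fun _ => rfl)
    have hst : (tmT M br B cd d).st (Sum.inl e₁ : TI M d) = false := k4
    refine ⟨t', h1, ?_, ?_⟩
    · rw [h2]
      unfold BM.own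
      rw [if_pos hst]
      ring
    · rw [h3]
      unfold BM.own
      rw [hst, if_neg Bool.false_ne_true, zero_add]

theorem pf_TLD (hIR : T_TIR) : Pool.Agent.H46.CH.T_TLD := by
  intro M br B cd d v₀ t'
  constructor
  · intro h
    exact tld_fwd hIR M br B cd d _ v₀ t' h .start rfl trivial
  · rintro ⟨v, s, t, h1, h2, h3, h4⟩
    obtain ⟨t'', k1, k2, k3⟩ := tld_bwd hIR M br B cd d _ _ _ _ _ h1 trivial t h2
    exact tre_ext k1 (by rw [h3, k2]) (by rw [h4, k3])

end Pool.Agent.H29.CHD
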